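import Mathlib
import Pool.Agent.H575R3.GRWExist
import Pool.Agent.Y225.GR.Inst

/-!
For every dimension `n ≥ 2` there is a connected, locally finite simple graph, roughly isometric to
the lattice of dimension `n`, with a vertex `o`, such that the greedy random walk (uniform rule)
started at `o` almost surely visits every vertex infinitely often; and the same for graphs roughly
isometric to the Cartesian product of any two infinite connected graphs of bounded degree.
-/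

open MeasureTheory Finset Pool.Agent.H575R3.GRW
open scoped ENNReal

namespace Pool.Agent.Results.MP_b2ff63_pr.AllDimensionsAndProducts

/-- The distance in the nearest-neighbour graph of the lattice of dimension `n`. -/
def latticeDist (n : ℕ) (x y : Fin n → ℤ) : ℕ := ∑ i, (x i - y i).natAbs

/-- `G` is roughly isometric to the space `W` with the distance `d`. -/
def RoughlyIsometric {V W : Type} (G : SimpleGraph V) (d : W → W → ℕ) : Prop :=
  ∃ (φ : V → W) (a b c : ℝ), 1 ≤ a ∧ 0 ≤ b ∧ 0 ≤ c ∧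
    (∀ x y, a⁻¹ * (G.dist x y : ℝ) - b ≤ (d (φ x) (φ y) : ℝ) ∧
      (d (φ x) (φ y) : ℝ) ≤ a * (G.dist x y : ℝ) + b) ∧
    ∀ z, ∃ x, (d z (φ x) : ℝ) ≤ c

/-- Some connected, locally finite graph `G` roughly isometric to `(W, d)` has a vertex `o` such
that the greedy random walk on `G` started at `o` (it exists) almost surely visits every vertex
infinitely often. -/
def HasRecurrentModel {W : Type} (d : W → W → ℕ) : Prop :=
  ∃ (V : Type) (_ : DecidableEq V) (G : SimpleGraph V) (_ : G.LocallyFinite) (o : V),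
    G.Connected ∧ RoughlyIsometric G d ∧
    (∃ (Ω : Type) (_ : MeasurableSpace Ω) (P : Measure Ω) (X : ℕ → Ω → V), IsGRW G o P X) ∧
    ∀ (Ω : Type) (_ : MeasurableSpace Ω) (P : Measure Ω) (X : ℕ → Ω → V), IsGRW G o P X →
      P {ω | ∀ v : V, ∀ n, ∃ t, n ≤ t ∧ X t ω = v} = 1

open Pool.Agent.H575R3.Net Pool.Agent.H575R3.ZZ Pool.Agent.Y225.GR in
lemma rough {W : Type} {d : W → W → ℕ} (hd : GM d) {u : Up} {i0 : ℕ} {Pt : ℕ → W}
    (L : LatW d u i0 Pt) : RoughlyIsometric (gr (CZ u)) d := by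
  refine ⟨fun v => Pt (bi v), 3, 40002 + 20000 * (i0 : ℝ), 0, by norm_num, by positivity, le_rfl,
    ?_, ?_⟩
  · intro x y
    have h1 := upperD hd L x y
    have h2 := lipD hd L x y
    have h1' : ((gr (CZ u)).dist x y : ℝ) ≤ 2 * (d (Pt (bi x)) (Pt (bi y)) : ℝ) +
        (40002 + 20000 * (i0 : ℝ)) := by exact_mod_cast h1
    have h2' : (d (Pt (bi x)) (Pt (bi y)) : ℝ) ≤ 3 * ((gr (CZ u)).dist x y : ℝ) := by
      exact_mod_cast h2
    have h3 : (0 : ℝ) ≤ (d (Pt (bi x)) (Pt (bi y)) : ℝ) := by positivity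
    have h4 : (0 : ℝ) ≤ (i0 : ℝ) := by positivity
    constructor
    · have : (3 : ℝ)⁻¹ * ((gr (CZ u)).dist x y : ℝ) = ((gr (CZ u)).dist x y : ℝ) / 3 := by ring
      rw [this]
      linarith
    · linarith
  · intro z
    obtain ⟨k, _, hk⟩ := L.s4 z
    refine ⟨hv u k, ?_⟩
    have h1 : bi (hv u k) = k := bi_hub (hv_val u k)
    show (d z (Pt (bi (hv u k))) : ℝ) ≤ 0
    rw [h1, hk, hd.self]
    norm_num

open Pool.Agent.Y225.GR in
theorem model {W : Type} {d : W → W → ℕ} (hd : GM d) {q : ℕ → W} {M : ℕ}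
    (T : Tour d q (DP M)) : HasRecurrentModel d := by
  obtain ⟨u, i0, Pt, L⟩ := exists_latW hd T
  have hconn := Pool.Agent.H575R3.ZZ.connected (u := u)
  refine ⟨Pool.Agent.H575R3.Net.Vx (Pool.Agent.H575R3.ZZ.CZ u), inferInstance,
    Pool.Agent.H575R3.Net.gr (Pool.Agent.H575R3.ZZ.CZ u), inferInstance, Pool.Agent.H575R3.ZZ.rt u,
    hconn, rough hd L, ?_, ?_⟩
  · obtain ⟨m, P, h⟩ := exists_isGRW (Pool.Agent.H575R3.Net.gr (Pool.Agent.H575R3.ZZ.CZ u))
      Pool.Agent.H575R3.ZZ.nbr_nonempty (Pool.Agent.H575R3.ZZ.rt u)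
    exact ⟨_, m, P, _, h⟩
  · intro Ω mΩ P X h
    have hprob : IsProbabilityMeasure P := ⟨h.prob⟩
    have h1 : ∀ᵐ ω ∂P, ∀ p : {p : Pool.Agent.H575R3.Net.Vx (Pool.Agent.H575R3.ZZ.CZ u) ×
        Pool.Agent.H575R3.Net.Vx (Pool.Agent.H575R3.ZZ.CZ u) //
        (Pool.Agent.H575R3.Net.gr (Pool.Agent.H575R3.ZZ.CZ u)).Adj p.1 p.2},
        (∀ n, ∃ t, n ≤ t ∧ X t ω = p.1.1) → (∀ n, ∃ t, n ≤ t ∧ X t ω = p.1.2) :=
      ae_all_iff.mpr (fun p => h.io_neighbor p.2)
    have h2 := Pool.Agent.H575R3.ZZ.recurrent hconn h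
    have h3 : ∀ᵐ ω ∂P, ∀ v, ∀ n, ∃ t, n ≤ t ∧ X t ω = v := by
      filter_upwards [h1, h2] with ω q1 q2
      have hwalk : ∀ a w, (Pool.Agent.H575R3.Net.gr (Pool.Agent.H575R3.ZZ.CZ u)).Walk a w →
          (∀ n, ∃ t, n ≤ t ∧ X t ω = a) → (∀ n, ∃ t, n ≤ t ∧ X t ω = w) := by
        intro a w p
        induction p with
        | nil => exact id
        | cons hadj p ih => exact fun hh => ih (q1 ⟨(_, _), hadj⟩ hh)
      intro w
      obtain ⟨p⟩ := hconn.preconnected (Pool.Agent.H575R3.ZZ.rt u) w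
      exact hwalk _ _ p q2
    have h4 : {ω | ∀ v, ∀ n, ∃ t, n ≤ t ∧ X t ω = v} =ᵐ[P] Set.univ :=
      Filter.eventuallyEq_univ.mpr h3
    rw [measure_congr h4]
    exact h.prob

/-- Recurrent greedy random walks exist on graphs roughly isometric to the lattice of every
dimension `n ≥ 2` and to every product of two infinite connected graphs of bounded degree. -/
theorem result :
    (∀ n : ℕ, 2 ≤ n → HasRecurrentModel (latticeDist n)) ∧
    ∀ (A B : Type) (GA : SimpleGraph A) (GB : SimpleGraph B) (Δ : ℕ), Infinite A → Infinite B →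
      GA.Connected → GB.Connected → (∀ v, (GA.neighborSet v).encard ≤ Δ) →
      (∀ v, (GB.neighborSet v).encard ≤ Δ) → HasRecurrentModel (GA □ GB).dist := by
  refine ⟨fun n hn => ?_, fun A B GA GB Δ hA hB h1 h2 h3 h4 => ?_⟩
  · obtain ⟨k, rfl⟩ : ∃ k, n = k + 2 := ⟨n - 2, by omega⟩
    obtain ⟨q, M, T⟩ := Pool.Agent.Y225.GR.tour_dk k
    exact model (Pool.Agent.Y225.GR.gm_dk (k + 2)) T
  · obtain ⟨q, T⟩ := Pool.Agent.Y225.GR.tour_box h1 h2 h3 h4
    exact model (Pool.Agent.Y225.GR.gm_dist (h1.boxProd h2)) T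

end Pool.Agent.Results.MP_b2ff63_pr.AllDimensionsAndProducts
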